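import Pool.Agent.H.MP_5eb27c_an.D

set_option autoImplicit false
open Set Function MeasureTheory

namespace Pool.Agent.Results.MP_5eb27c_an.Yes

theorem result {G : Type*} [Group G] [TopologicalSpace G] [IsTopologicalGroup G] [T2Space G]
    [LocallyCompactSpace G] [MeasurableSpace G] [BorelSpace G]
    (μ : Measure G) [μ.IsHaarMeasure] [μ.Regular]
    (E U : Set G) (hE : MeasurableSet E) (h0 : μ E = 0) (hU : IsOpen U) (hne : U.Nonempty) :
    ∃ F ⊆ U, ∃ (A B : ℕ → Set G) (g : ℕ → G),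
      (∀ i, MeasurableSet (A i)) ∧ (∀ i, MeasurableSet (B i)) ∧
      Pairwise (Disjoint on A) ∧ Pairwise (Disjoint on B) ∧
      (⋃ i, A i) = E ∧ (⋃ i, B i) = F ∧ ∀ i, (fun x => g i * x) '' A i = B i := by
  obtain ⟨f, f1, f2, f3, f4⟩ := Pool.Agent.H.MP_5eb27c_an.pack μ h0 hU hne
  obtain ⟨g, hg⟩ := f1.exists_eq_range (range_nonempty f)
  let P : ℕ → Set G := fun i => E ∩ f ⁻¹' {g i}
  have mP : ∀ i, MeasurableSet (P i) := fun i => hE.inter (f2 _)
  have mD : ∀ i, MeasurableSet (disjointed P i) := MeasurableSet.disjointed mP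
  have sD : ∀ i, ∀ x ∈ disjointed P i, x ∈ E ∧ f x = g i := fun i x hx => disjointed_subset P i hx
  refine ⟨⋃ i, (fun x => g i * x) '' disjointed P i, ?_, disjointed P,
    fun i => (fun x => g i * x) '' disjointed P i, g, mD,
    fun i => (measurableEmbedding_mulLeft (g i)).measurableSet_image.2 (mD i),
    disjoint_disjointed P, fun i j hij => ?_, ?_, rfl, fun _ => rfl⟩
  · rintro _ ⟨_, ⟨i, rfl⟩, x, hx, rfl⟩
    have := f4 (sD i x hx).1
    simpa [(sD i x hx).2] using this
  · refine disjoint_left.2 ?_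
    rintro _ ⟨x, hx, rfl⟩ ⟨y, hy, h⟩
    have : y = x := f3 (sD j y hy).1 (sD i x hx).1 (by simpa [(sD j y hy).2, (sD i x hx).2] using h)
    subst this
    exact disjoint_left.1 (disjoint_disjointed P hij) hx hy
  · rw [iUnion_disjointed]
    refine subset_antisymm (iUnion_subset fun i => inter_subset_left) fun x hx => ?_
    obtain ⟨i, hi⟩ : f x ∈ range g := hg ▸ mem_range_self x
    exact mem_iUnion.2 ⟨i, hx, hi.symm⟩

end Pool.Agent.Results.MP_5eb27c_an.Yes
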